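import Mathlib
import Pool.Agent.Lib.MP_5cf805_al.Defs
import Pool.Agent.Lib.MP_5cf805_al.FilterProof

set_option autoImplicit false

namespace Pool.Agent.Results.MP_5cf805_al.FilterDegree

open Pointwise Cardinal Pool.Agent.Lib.MP_5cf805_al

universe u v

/-- **The degree of transitivity of `GL(V)` on the translates of a maximal filter is exactly `2`.** -/
theorem result {F : Type u} {V : Type v} [Field F] [AddCommGroup V] [Module F V]
    (hV : ℵ₀ ≤ Module.rank F V) (𝓕 : Set (Submodule F V)) (h𝓕 : IsMaximalFilter 𝓕) :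
    transitivityDegree (V ≃ₗ[F] V) (MulAction.orbit (V ≃ₗ[F] V) 𝓕) = 2 :=
  FilterProof.main hV 𝓕 h𝓕

end Pool.Agent.Results.MP_5cf805_al.FilterDegree
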